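import Pool.Agent.MP_fcd29e_an.H4.CLGa

/-! The term `κ |F|²`. -/

set_option autoImplicit false

open Complex Set Filter Topology Metric
open scoped ContDiff ComplexConjugate

namespace Pool.Agent.MP_fcd29e_an.H4

open Pool.Agent.MP_fcd29e_an.H11

namespace CLG

theorem small (a b : ℝ) (hb : 0 < b) : ∀ᶠ θ in 𝓝[>] (0 : ℝ), θ * a ≤ b := by
  have : Tendsto (fun θ : ℝ => θ * a) (𝓝 0) (𝓝 (0 * a)) := tendsto_id.mul_const a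
  exact (this.eventually (ge_mem_nhds (by simpa using hb))).filter_mono nhdsWithin_le_nhds

section
variable {U W : Type} [NormedAddCommGroup U] [NormedAddCommGroup W]

theorem nrm (v : ℂ × U × W) : ‖v‖ ^ 2 ≤ ‖v.1‖ ^ 2 + ‖v.2.1‖ ^ 2 + ‖v.2.2‖ ^ 2 := by
  rw [Prod.norm_def, Prod.norm_def]
  simp only [max_def]
  split_ifs <;> nlinarith [sq_nonneg ‖v.1‖, sq_nonneg ‖v.2.1‖, sq_nonneg ‖v.2.2‖]

theorem nrm0 (w : W) : ‖((0, 0, w) : ℂ × U × W)‖ = ‖w‖ := by simp [Prod.norm_def]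

variable [NormedSpace ℂ U] [NormedSpace ℂ W]

/-- The projection that forgets the last coordinate. -/
noncomputable def pr : (ℂ × U × W) →L[ℂ] (ℂ × U × W) :=
  (ContinuousLinearMap.id ℂ ℂ).prodMap ((ContinuousLinearMap.id ℂ U).prodMap 0)

theorem pr_apply (p : ℂ × U × W) : pr p = (p.1, p.2.1, 0) := rfl

theorem sub_pr (p : ℂ × U × W) : p - pr p = (0, 0, p.2.2) := by ext <;> simp [pr_apply]

theorem pr_tendsto {p₀ : ℂ × U × W} (h : p₀.2.2 = 0) : Tendsto pr (𝓝 p₀) (𝓝 p₀) := by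
  have e : pr p₀ = p₀ := by ext <;> simp [pr_apply, h]
  simpa [e] using (pr (U := U) (W := W)).continuous.tendsto p₀

theorem lipw {Y : Type} [NormedAddCommGroup Y] {T : ℂ × U × W → Y} {p₀ : ℂ × U × W}
    (h : p₀.2.2 = 0) (hT : ∃ K, ∃ t ∈ 𝓝 p₀, LipschitzOnWith K T t) :
    ∃ C : ℝ, 0 ≤ C ∧ ∀ᶠ p in 𝓝 p₀, ‖T p - T (pr p)‖ ≤ C * ‖p.2.2‖ := by
  obtain ⟨K, t, ht, hK⟩ := hT
  refine ⟨K, K.2, ?_⟩
  filter_upwards [ht, pr_tendsto h ht] with p h1 h2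
  have := hK.norm_sub_le h1 h2
  rwa [sub_pr, nrm0] at this

theorem facts {β : Type} [Fintype β] [FiniteDimensional ℂ W] {F : ℂ × U × W → β → ℂ}
    {p₀ : ℂ × U × W} (h0 : p₀.2.2 = 0) (hF : AnalyticAt ℂ F p₀)
    (hz : ∀ᶠ p in 𝓝 p₀, p.2.2 = 0 → F p = 0)
    (hi : ∀ w : W, fderiv ℂ F p₀ (0, 0, w) = 0 → w = 0) :
    ∃ c C : ℝ, 0 < c ∧ 0 ≤ C ∧ ∀ᶠ p in 𝓝 p₀,
      (∀ w : W, c * ‖w‖ ≤ ‖fderiv ℂ F p (0, 0, w)‖) ∧
      (∀ v, ‖fderiv ℂ F p (pr v)‖ ≤ C * ‖p.2.2‖ * ‖pr v‖) ∧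
      c * ‖p.2.2‖ ≤ ‖F p‖ ∧ ‖F p‖ ≤ C * ‖p.2.2‖ := by
  obtain ⟨K, K0, hK⟩ := LinearMap.exists_antilipschitzWith
    ((fderiv ℂ F p₀).toLinearMap ∘ₗ LinearMap.inr ℂ ℂ (U × W) ∘ₗ LinearMap.inr ℂ U W)
    (LinearMap.ker_eq_bot'.2 hi)
  have K0' : (0 : ℝ) < K := K0
  have a0 : ∀ w : W, (K : ℝ)⁻¹ * ‖w‖ ≤ ‖fderiv ℂ F p₀ (0, 0, w)‖ := fun w => by
    rw [inv_mul_le_iff₀ K0']
    exact ZeroHomClass.bound_of_antilipschitz _ hK w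
  have c0 : 0 < (K : ℝ)⁻¹ / 2 := by positivity
  obtain ⟨C₁, C1, h1⟩ := lipw h0 (hF.fderiv.contDiffAt (n := 1)).exists_lipschitzOnWith
  obtain ⟨C₂, C2, h2⟩ := lipw h0 (hF.contDiffAt (n := 1)).exists_lipschitzOnWith
  have h3 : ∀ᶠ p in 𝓝 p₀, ‖fderiv ℂ F p - fderiv ℂ F p₀‖ < (K : ℝ)⁻¹ / 2 := by
    simpa only [dist_eq_norm] using Metric.tendsto_nhds.1 hF.fderiv.continuousAt _ c0
  have h4 := (tendsto_id.prodMk_nhds (pr_tendsto h0)).eventually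
    (hF.hasStrictFDerivAt.isLittleO.def c0)
  refine ⟨(K : ℝ)⁻¹ / 2, C₁ + C₂, c0, by positivity, ?_⟩
  filter_upwards [h1, h2, h3, h4,
    (pr_tendsto h0).eventually (hz.eventually_nhds.and hF.eventually_analyticAt)]
    with p b1 b2 b3 b4 b5
  have z0 : F (pr p) = 0 := b5.1.self_of_nhds rfl
  have z1 : ∀ v, fderiv ℂ F (pr p) (pr v) = 0 := fun v => by
    have e : (F ∘ pr) =ᶠ[𝓝 p] fun _ => 0 :=
      ((pr (U := U) (W := W)).continuous.tendsto p).eventually b5.1 |>.mono fun q hq => hq rfl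
    have d := (b5.2.differentiableAt.hasFDerivAt.comp p (pr (U := U) (W := W)).hasFDerivAt).unique
      ((hasFDerivAt_const (0 : β → ℂ) p).congr_of_eventuallyEq e)
    exact congrArg (fun T => T v) d
  have w0 := norm_nonneg p.2.2
  rw [z0, sub_zero] at b2
  refine ⟨fun w => ?_, fun v => ?_, ?_, by nlinarith⟩
  · have := (fderiv ℂ F p - fderiv ℂ F p₀).le_of_opNorm_le b3.le (0, 0, w)
    rw [sub_apply, nrm0] at this
    linarith [a0 w, norm_sub_norm_le (fderiv ℂ F p₀ (0, 0, w)) (fderiv ℂ F p (0, 0, w)),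
      norm_sub_rev (fderiv ℂ F p₀ (0, 0, w)) (fderiv ℂ F p (0, 0, w))]
  · have := (fderiv ℂ F p - fderiv ℂ F (pr p)).le_of_opNorm_le b1 (pr v)
    rw [sub_apply, z1, sub_zero] at this
    refine this.trans (mul_le_mul_of_nonneg_right ?_ (norm_nonneg _))
    nlinarith
  · simp only [id, z0, sub_zero, sub_pr, nrm0] at b4
    linarith [a0 p.2.2, norm_sub_norm_le (fderiv ℂ F p₀ (0, 0, p.2.2)) (F p),
      norm_sub_rev (fderiv ℂ F p₀ (0, 0, p.2.2)) (F p)]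

end

theorem num1 {L M M₁ θ x m s l a b : ℝ} (hL : 0 < L) (hM : 0 ≤ M) (hθ : 0 ≤ θ)
    (h1 : θ * (4 * M₁ ^ 2) ≤ L / 4) (hm : m ^ 2 ≤ s) {n : ℝ} (hn : n ^ 2 ≤ x ^ 2 + s)
    (hl : x ^ 2 * L - 2 * M * (2 * (x * m) + m ^ 2) - 2 * (L / 8) * n ^ 2 ≤ l)
    (ha : |a| ≤ M₁ * n) (hb : |b| ≤ M₁ * n) :
    L / 4 * x ^ 2 - (16 * M ^ 2 / L + 2 * M + L / 2) * s ≤ l - 2 * θ * (a ^ 2 + b ^ 2) := by
  have a1 : a ^ 2 ≤ (M₁ * n) ^ 2 := sq_le_sq' (abs_le.1 ha).1 (abs_le.1 ha).2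
  have b1 : b ^ 2 ≤ (M₁ * n) ^ 2 := sq_le_sq' (abs_le.1 hb).1 (abs_le.1 hb).2
  have c1 := mul_le_mul_of_nonneg_left (add_le_add a1 b1) hθ
  have c2 := mul_le_mul_of_nonneg_right h1 (sq_nonneg n)
  have c3 := mul_le_mul_of_nonneg_left hn hL.le
  have c4 : 4 * M * (x * m) ≤ L / 4 * x ^ 2 + 16 * M ^ 2 / L * m ^ 2 := by
    have e : L / 4 * x ^ 2 + 16 * M ^ 2 / L * m ^ 2 - 4 * M * (x * m) =
        (L * x - 8 * M * m) ^ 2 / (4 * L) := by field_simp; ring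
    have : 0 ≤ (L * x - 8 * M * m) ^ 2 / (4 * L) := by positivity
    linarith
  have c5 := mul_le_mul_of_nonneg_left hm hM
  have c6 := mul_le_mul_of_nonneg_left hm (show 0 ≤ 16 * M ^ 2 / L by positivity)
  nlinarith

theorem num2 {c C C₂ L θ nb x y o w m A N H d : ℝ} (hθ : 0 ≤ θ) (hL : 0 ≤ L) (h2 : 0 ≤ C₂)
    (hc : 0 ≤ c * o) (ht : θ * (4 * C ^ 2) ≤ c ^ 2 * L / 8)
    (hw : nb * C ^ 2 * C₂ * w ^ 2 ≤ θ * c ^ 2) (hm : m ^ 2 ≤ x ^ 2 + y ^ 2)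
    (hd : c * o ≤ d + C * w * m) (hA : d ^ 2 ≤ A) (n1 : (c * w) ^ 2 ≤ N)
    (n2 : N ≤ nb * (C * w) ^ 2) (hH : L / 4 * x ^ 2 - C₂ * (y ^ 2 + o ^ 2) ≤ H) :
    θ * c ^ 2 * o ^ 2 + c ^ 2 * L / 8 * (w ^ 2 * x ^ 2) -
      (4 * θ * C ^ 2 + nb * C ^ 2 * C₂) * w ^ 2 * y ^ 2 ≤ 4 * θ * A + N * H := by
  have N0 : 0 ≤ N := (sq_nonneg _).trans n1
  have a1 : (c * o) ^ 2 ≤ 2 * d ^ 2 + 2 * (C * w * m) ^ 2 :=
    (pow_le_pow_left₀ hc hd 2).trans (by nlinarith [sq_nonneg (d - C * w * m)])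
  have a2 := mul_le_mul_of_nonneg_left hm (sq_nonneg (C * w))
  have a3 : c ^ 2 * o ^ 2 / 2 - C ^ 2 * w ^ 2 * (x ^ 2 + y ^ 2) ≤ A := by nlinarith
  have a4 := mul_le_mul_of_nonneg_left a3 hθ
  have b1 := mul_le_mul_of_nonneg_left hH N0
  have b2 := mul_le_mul_of_nonneg_right n1 (show 0 ≤ L / 4 * x ^ 2 by positivity)
  have b3 := mul_le_mul_of_nonneg_right n2 (show 0 ≤ C₂ * (y ^ 2 + o ^ 2) by positivity)
  have b4 := mul_le_mul_of_nonneg_right hw (sq_nonneg o)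
  have b5 := mul_le_mul_of_nonneg_right ht (show 0 ≤ w ^ 2 * x ^ 2 by positivity)
  linarith

end CLG

open CLG in
theorem slg (hHS : SHS) (hLV : SLV) : SLG := by
  intro U W β _ _ _ _ _ _ _ _ _ _ _ k F p₀ h0 hk k0 hl hF hz hi
  have : FiniteDimensional ℂ W := Module.Finite.of_restrictScalars_finite ℝ ℂ W
  have : CompleteSpace U := FiniteDimensional.complete ℝ U
  have : CompleteSpace W := FiniteDimensional.complete ℝ W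
  obtain ⟨c, C, c0, C0, hf⟩ := facts h0 hF hz hi
  have hψ : ContDiffAt ℝ ∞ (fun q => Real.log (k q)) p₀ := hk.self_of_nhds.log k0.ne'
  set ψ : ℂ × U × W → ℝ := fun q => Real.log (k q) with eψ
  obtain ⟨L, hL⟩ : ∃ L, L = lev ψ p₀ (1, 0, 0) := ⟨_, rfl⟩
  have L0 : 0 < L := by
    have d : HasFDerivAt (fun z : ℂ => (z, p₀.2)) (ContinuousLinearMap.inl ℂ ℂ (U × W)) p₀.1 :=
      hasFDerivAt_prodMk_left _ _
    have := (hLV.hol ℂ (ℂ × U × W) ψ (fun z => (z, p₀.2)) p₀.1 1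
      (analyticAt_id.prod analyticAt_const) (hψ.of_le two_le)).1
    rw [d.fderiv] at this
    exact hL ▸ hl.trans_eq this
  have d1 : ContDiffAt ℝ ∞ (fderiv ℝ ψ) p₀ := hψ.fderiv_right (by simp)
  have d2 : ContDiffAt ℝ ∞ (fderiv ℝ (fderiv ℝ ψ)) p₀ := d1.fderiv_right (by simp)
  obtain ⟨M, hM⟩ : ∃ M, M = ‖fderiv ℝ (fderiv ℝ ψ) p₀‖ := ⟨_, rfl⟩
  have M0 : 0 ≤ M := hM ▸ ContinuousLinearMap.opNorm_nonneg _
  obtain ⟨θ, ⟨t1, t2, t3⟩, t0⟩ := (((small 1 (1 / 2) (by norm_num)).and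
    ((small (4 * (‖fderiv ℝ ψ p₀‖ + 1) ^ 2) (L / 4) (by positivity)).and
      (small (4 * C ^ 2) (c ^ 2 * L / 8) (by positivity)))).and self_mem_nhdsWithin).exists
  have t0 : 0 < θ := t0
  rw [mul_one] at t1
  obtain ⟨C₂, hC₂⟩ : ∃ C₂, C₂ = 16 * M ^ 2 / L + 2 * M + L / 2 := ⟨_, rfl⟩
  have C2 : 0 ≤ C₂ := by rw [hC₂]; positivity
  have g0 : ContDiffAt ℝ ∞ (fun q => k q * nsq (F q)) p₀ :=
    hk.self_of_nhds.mul (hLV.nsq _ β F p₀ 0 hF).1.self_of_nhds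
  have g2 : ContDiffAt ℝ 1 (fderiv ℝ (fderiv ℝ fun q => k q * nsq (F q))) p₀ :=
    (g0.fderiv_right (m := ∞) (by simp)).fderiv_right two_le
  obtain ⟨C₄, C4, e1⟩ := lipw h0 g2.exists_lipschitzOnWith
  have e2 : ∀ᶠ p in 𝓝 p₀, ‖fderiv ℝ (fderiv ℝ ψ) p - fderiv ℝ (fderiv ℝ ψ) p₀‖ < L / 8 := by
    simpa only [dist_eq_norm] using Metric.tendsto_nhds.1 d2.continuousAt _ (by positivity)
  have e3 : ∀ᶠ p in 𝓝 p₀, ‖fderiv ℝ ψ p‖ ≤ ‖fderiv ℝ ψ p₀‖ + 1 :=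
    d1.continuousAt.norm.eventually (ge_mem_nhds (lt_add_one _))
  have e4 : ∀ᶠ p in 𝓝 p₀, k p₀ / 2 ≤ k p :=
    hk.self_of_nhds.continuousAt.eventually (le_mem_nhds (half_lt_self k0))
  have e5 : ∀ᶠ p in 𝓝 p₀, k p ≤ 2 * k p₀ :=
    hk.self_of_nhds.continuousAt.eventually (ge_mem_nhds (by linarith))
  have e6 : ∀ᶠ p : ℂ × U × W in 𝓝 p₀,
      Fintype.card β * C ^ 2 * C₂ * ‖p.2.2‖ ^ 2 ≤ θ * c ^ 2 := by
    have : ContinuousAt (fun p : ℂ × U × W => Fintype.card β * C ^ 2 * C₂ * ‖p.2.2‖ ^ 2) p₀ := by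
      fun_prop
    exact this.eventually (ge_mem_nhds (by simp only [h0, norm_zero]; simp; positivity))
  obtain ⟨c₃, hc₃⟩ : ∃ c₃, c₃ = min (θ * c ^ 2) (c ^ 2 * L / 8) := ⟨_, rfl⟩
  have c3 : 0 < c₃ := hc₃ ▸ lt_min (by positivity) (by positivity)
  have c31 : c₃ ≤ θ * c ^ 2 := hc₃ ▸ min_le_left _ _
  have c32 : c₃ ≤ c ^ 2 * L / 8 := hc₃ ▸ min_le_right _ _
  obtain ⟨C₃, hC₃⟩ : ∃ C₃, C₃ = 4 * θ * C ^ 2 + Fintype.card β * C ^ 2 * C₂ := ⟨_, rfl⟩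
  have C3 : 0 ≤ C₃ := by rw [hC₃]; positivity
  refine ⟨k p₀ / 2 * c₃, 2 * k p₀ * C₃ + C₄, by positivity, ?_⟩
  filter_upwards [hf, hk, hF.eventually_analyticAt, e1, e2, e3, e4, e5, e6,
    (pr_tendsto h0).eventually (hf.and (hk.and (hF.eventually_analyticAt.and e4)))]
    with p ⟨f1, f2, f3, f4⟩ a1 a2 b1 b2 b3 b4 b5 b6 ⟨⟨g1, g2, _, g4⟩, g5, g6, g7⟩ v
  have kp : 0 < k p := by linarith
  have sv : ∀ T : (ℂ × U × W) →L[ℂ] β → ℂ, T v = T (pr v) + T (0, 0, v.2.2) := fun T => by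
    rw [← map_add, ← sub_pr, add_sub_cancel]
  constructor
  · refine le_trans ?_ (lev_ge hHS hLV (a1.of_le two_le) kp a2 v t0.le t1)
    have s1 := lev_split ψ p p₀ (v.1 • (1, 0, 0)) (0, v.2.1, v.2.2) _ b2.le
    have s2 : (v.1 • (1, 0, 0) : ℂ × U × W) + (0, v.2.1, v.2.2) = v := by ext <;> simp
    have s3 : ‖(v.1 • (1, 0, 0) : ℂ × U × W)‖ = ‖v.1‖ := by simp [Prod.norm_def]
    rw [s2, s3, hLV.scal _ ψ p₀ _ _ (hψ.of_le two_le), ← hL, ← hM] at s1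
    have s4 := num1 L0 M0 t0.le t2 (s := ‖v.2.1‖ ^ 2 + ‖v.2.2‖ ^ 2)
      (by simpa using nrm ((0, v.2.1, v.2.2) : ℂ × U × W)) (by linarith [nrm v]) s1
      ((fderiv ℝ ψ p).le_of_opNorm_le b3 v)
      (by simpa [norm_smul] using (fderiv ℝ ψ p).le_of_opNorm_le b3 (I • v))
    rw [← hC₂] at s4
    have s5 : c * ‖v.2.2‖ ≤ ‖fderiv ℂ F p v‖ + C * ‖p.2.2‖ * ‖pr v‖ := by
      have e : fderiv ℂ F p (0, 0, v.2.2) = fderiv ℂ F p v - fderiv ℂ F p (pr v) := by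
        rw [sv (fderiv ℂ F p), add_sub_cancel_left]
      exact (f1 _).trans (e ▸ (norm_sub_le _ _).trans (add_le_add_right (f2 v) _))
    have s6 := num2 t0.le L0.le C2 (by positivity) t3 b6 (by simpa [pr_apply] using nrm (pr v)) s5
      (le_nsq _) ((pow_le_pow_left₀ (by positivity) f3 2).trans (le_nsq _))
      ((nsq_le _).trans (mul_le_mul_of_nonneg_left (pow_le_pow_left₀ (norm_nonneg _) f4 2)
        (Nat.cast_nonneg _))) s4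
    rw [← hC₃] at s6
    refine le_trans ?_ (mul_le_mul_of_nonneg_left s6 kp.le)
    have u1 := mul_le_mul_of_nonneg_right c31 (sq_nonneg ‖v.2.2‖)
    have u2 := mul_le_mul_of_nonneg_right c32
      (show 0 ≤ ‖p.2.2‖ ^ 2 * ‖v.1‖ ^ 2 by positivity)
    have u3 := mul_le_mul b4 (add_le_add u1 u2) (by positivity) kp.le
    have u4 := mul_le_mul_of_nonneg_right b5
      (show 0 ≤ C₃ * ‖p.2.2‖ ^ 2 * ‖v.2.1‖ ^ 2 by positivity)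
    have u5 : 0 ≤ C₄ * ‖p.2.2‖ ^ 2 * ‖v.2.1‖ ^ 2 := by positivity
    linarith
  · intro hv
    have z0 : F (pr p) = 0 := by simpa [pr_apply] using g4
    have z1 : fderiv ℂ F (pr p) (pr v) = 0 := by simpa [pr_apply p] using g2 v
    have s1 := hs_eq hHS hLV (g5.of_le two_le) g6 z0 v
    rw [sv (fderiv ℂ F (pr p)), z1, zero_add] at s1
    have s2 := (pow_le_pow_left₀ (by positivity) (g1 v.2.2) 2).trans (le_nsq _)
    have s3 := ContinuousLinearMap.le_of_opNorm₂_le_of_le _ b1 (le_refl ‖v‖) (le_refl ‖v‖)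
    rw [sub_apply, sub_apply, Real.norm_eq_abs, abs_le] at s3
    have s4 : ‖v‖ ^ 2 ≤ ‖v.2.1‖ ^ 2 + ‖v.2.2‖ ^ 2 := by simpa [hv] using nrm v
    have s5 := mul_le_mul_of_nonneg_left s4 (show 0 ≤ C₄ * ‖p.2.2‖ by positivity)
    have s6 := mul_le_mul g7 s2 (by positivity) (by linarith)
    have u1 : c₃ ≤ c ^ 2 := c31.trans (by nlinarith [sq_nonneg c])
    have u2 := mul_le_mul_of_nonneg_right u1 (show 0 ≤ k p₀ / 2 * ‖v.2.2‖ ^ 2 by positivity)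
    have u3 : 0 ≤ 2 * k p₀ * C₃ * ‖p.2.2‖ * (‖v.2.1‖ ^ 2 + ‖v.2.2‖ ^ 2) := by positivity
    have u4 : 0 ≤ k p₀ / 2 * (c * ‖v.2.2‖) ^ 2 := by positivity
    unfold hs at s1 ⊢
    linarith [s3.1]

end Pool.Agent.MP_fcd29e_an.H4
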