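import Pool.Agent.MP_fcd29e_an.H81.Spec

/-!
The kernel preserves Sobolev spaces.
-/

set_option autoImplicit false

open Pool.Agent.MP_fcd29e_an.H81 MeasureTheory Complex Set Filter Topology Metric
open scoped ContDiff ComplexConjugate ENNReal NNReal

namespace Pool.Agent.MP_fcd29e_an.H4

variable {N : ℕ}

/-! ### The far part -/

/-- Rescaled symbols. -/
def Gd (s : ℝ) (Φ : E N → ℂ) : Prop :=
  ∃ (d : ℕ) (Ψ : E N → ℂ) (c : ℂ), 2 * N - 1 ≤ d ∧ Sym d Ψ ∧ Φ = fun y => c * Ψ (s⁻¹ • y)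

theorem Gd.smooth {s : ℝ} {Φ : E N → ℂ} (h : Gd s Φ) : ContDiff ℝ ∞ Φ := by
  obtain ⟨d, Ψ, c, -, hS, rfl⟩ := h
  exact contDiff_const.mul (hS.1.comp (contDiff_const_smul _))

theorem Gd.deriv (L : Lv0) (hN : 1 ≤ N) {s : ℝ} {Φ : E N → ℂ} (h : Gd s Φ) (v : E N) :
    Gd s fun y => fderiv ℝ Φ y v := by
  obtain ⟨d, Ψ, c, hd, hS, rfl⟩ := h
  refine ⟨d + 1, fun y => fderiv ℝ Ψ y (s⁻¹ • v), c, by omega,
    ((L.bm1 N hN).2.2.2 d Ψ hS).1 _, ?_⟩
  funext y
  have h1 : HasFDerivAt (fun y : E N => s⁻¹ • y) (s⁻¹ • ContinuousLinearMap.id ℝ (E N)) y :=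
    (hasFDerivAt_id y).const_smul s⁻¹
  have h2 : HasFDerivAt Ψ (fderiv ℝ Ψ (s⁻¹ • y)) (s⁻¹ • y) :=
    (hS.1.differentiable (by simp) _).hasFDerivAt
  have h3 := (h2.comp y h1).const_mul c
  have h4 : HasFDerivAt (fun y => c * Ψ (s⁻¹ • y)) _ y := h3
  rw [h4.fderiv]
  simp

theorem Gd.dec (L : Lv0) (hN : 1 ≤ N) {s : ℝ} (hs : 0 < s) {Φ : E N → ℂ} (h : Gd s Φ) :
    ∃ C : ℝ, 0 ≤ C ∧ ∀ y, ‖Φ y‖ ≤ C / (1 + ‖y‖) ^ (2 * N - 1) := by
  obtain ⟨d, Ψ, c, hd, hS, rfl⟩ := h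
  obtain ⟨C, hC⟩ := ((L.bm1 N hN).2.2.2 d Ψ hS).2
  refine ⟨‖c‖ * (|C| * (1 + s) ^ (2 * N - 1)), by positivity, fun y => ?_⟩
  rw [norm_mul, mul_div_assoc]
  refine mul_le_mul_of_nonneg_left ((hC _).trans ?_) (norm_nonneg c)
  have ht : 0 ≤ ‖s⁻¹ • y‖ := norm_nonneg _
  have hy : ‖y‖ = s * ‖s⁻¹ • y‖ := by
    rw [norm_smul, Real.norm_eq_abs, abs_of_pos (inv_pos.2 hs), ← mul_assoc,
      mul_inv_cancel₀ hs.ne', one_mul]
  set t := ‖s⁻¹ • y‖
  have h1 : (1 + t) ^ (2 * N - 1) ≤ (1 + t) ^ d := pow_le_pow_right₀ (by linarith) hd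
  have h2 : (1 + ‖y‖) ^ (2 * N - 1) ≤ (1 + s) ^ (2 * N - 1) * (1 + t) ^ (2 * N - 1) := by
    rw [← mul_pow]
    exact pow_le_pow_left₀ (by positivity) (by rw [hy]; nlinarith) _
  rw [div_le_div_iff₀ (by positivity) (by positivity)]
  calc C * (1 + ‖y‖) ^ (2 * N - 1) ≤ |C| * (1 + ‖y‖) ^ (2 * N - 1) :=
        mul_le_mul_of_nonneg_right (le_abs_self C) (by positivity)
    _ ≤ |C| * ((1 + s) ^ (2 * N - 1) * (1 + t) ^ d) :=
        mul_le_mul_of_nonneg_left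
          (h2.trans (mul_le_mul_of_nonneg_left h1 (by positivity))) (abs_nonneg C)
    _ = _ := by ring

theorem Gd.dec' (L : Lv0) (hN : 1 ≤ N) {s : ℝ} (hs : 0 < s) {Φ : E N → ℂ} (h : Gd s Φ) :
    ∃ C : ℝ, 0 ≤ C ∧ ∀ y, ‖fderiv ℝ Φ y‖ ≤ C / (1 + ‖y‖) ^ (2 * N - 1) := by
  choose A hA0 hA using fun v : E N => (h.deriv L hN v).dec L hN hs
  refine ⟨∑ j, (A (ee j) + A (I • ee j)),
    Finset.sum_nonneg fun j _ => add_nonneg (hA0 _) (hA0 _), fun y => ?_⟩
  refine ContinuousLinearMap.opNorm_le_bound _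
    (div_nonneg (Finset.sum_nonneg fun j _ => add_nonneg (hA0 _) (hA0 _)) (by positivity))
    fun v => ?_
  conv_lhs => rw [eq_sum_ee v]
  rw [map_sum, Finset.sum_div, Finset.sum_mul]
  refine (norm_sum_le _ _).trans (Finset.sum_le_sum fun j _ => ?_)
  rw [map_add, map_smul, map_smul]
  have h0 : ‖v j‖ ≤ ‖v‖ := PiLp.norm_apply_le v j
  have h1 : ‖(v j).re‖ ≤ ‖v‖ := (abs_re_le_norm _).trans h0
  have h2 : ‖(v j).im‖ ≤ ‖v‖ := (abs_im_le_norm _).trans h0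
  refine (norm_add_le _ _).trans ?_
  rw [norm_smul, norm_smul, add_div, add_mul, mul_comm _ ‖v‖, mul_comm _ ‖v‖]
  exact add_le_add (mul_le_mul h1 (hA _ y) (norm_nonneg _) (norm_nonneg _))
    (mul_le_mul h2 (hA _ y) (norm_nonneg _) (norm_nonneg _))

theorem peetre {C R : ℝ} (hC : 0 ≤ C) {x : E N} (hx : ‖x‖ ≤ R) (y : E N) (a : ℂ) :
    C / (1 + ‖x - y‖) ^ (2 * N - 1) * ‖a‖ ≤
      C * (1 + R) ^ (2 * N - 1) * ‖a / ((1 + ‖y‖) ^ (2 * N - 1) : ℝ)‖ := by
  have hR : 0 ≤ R := (norm_nonneg x).trans hx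
  have h1 : ‖y‖ ≤ R + ‖x - y‖ := by
    have := norm_sub_le x (x - y)
    rw [sub_sub_cancel] at this
    linarith
  have h2 : (1 + ‖y‖) ^ (2 * N - 1) ≤ (1 + R) ^ (2 * N - 1) * (1 + ‖x - y‖) ^ (2 * N - 1) := by
    rw [← mul_pow]
    exact pow_le_pow_left₀ (by positivity) (by nlinarith [norm_nonneg (x - y)]) _
  rw [norm_div, Complex.norm_real, Real.norm_of_nonneg (by positivity), div_mul_eq_mul_div,
    ← mul_div_assoc, div_le_div_iff₀ (by positivity) (by positivity)]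
  calc C * ‖a‖ * (1 + ‖y‖) ^ (2 * N - 1) ≤
        C * ‖a‖ * ((1 + R) ^ (2 * N - 1) * (1 + ‖x - y‖) ^ (2 * N - 1)) :=
        mul_le_mul_of_nonneg_left h2 (by positivity)
    _ = _ := by ring

theorem far_int (L : Lv0) (hN : 1 ≤ N) {s : ℝ} (hs : 0 < s) {Φ f : E N → ℂ} (h : Gd s Φ)
    (hf : DI f) (x : E N) : Integrable fun y => Φ (x - y) * f y := by
  obtain ⟨C, hC0, hC⟩ := h.dec L hN hs
  have hm : AEStronglyMeasurable f volume := ((L.t3.2 N).2.2 f hf).aestronglyMeasurable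
  refine (hf.norm.const_mul (C * (1 + ‖x‖) ^ (2 * N - 1))).mono'
    ((h.smooth.continuous.comp (continuous_const.sub continuous_id)).aestronglyMeasurable.mul hm)
    (Eventually.of_forall fun y => ?_)
  rw [norm_mul]
  exact (mul_le_mul_of_nonneg_right (hC _) (norm_nonneg _)).trans (peetre hC0 le_rfl y _)

theorem far_deriv (L : Lv0) (hN : 1 ≤ N) {s : ℝ} (hs : 0 < s) {Φ f : E N → ℂ} (h : Gd s Φ)
    (hf : DI f) (x : E N) : DifferentiableAt ℝ (fun x => ∫ y, Φ (x - y) * f y) x ∧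
      ∀ v, fderiv ℝ (fun x => ∫ y, Φ (x - y) * f y) x v = ∫ y, fderiv ℝ Φ (x - y) v * f y := by
  obtain ⟨C, hC0, hC⟩ := h.dec' L hN hs
  have hm : AEStronglyMeasurable f volume := ((L.t3.2 N).2.2 f hf).aestronglyMeasurable
  have hc : Continuous (fderiv ℝ Φ) := h.smooth.continuous_fderiv (by simp)
  have hm' : AEStronglyMeasurable (fun y => f y • fderiv ℝ Φ (x - y)) volume :=
    hm.smul (hc.comp (continuous_const.sub continuous_id)).aestronglyMeasurable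
  have hb : ∀ y, ∀ x' ∈ ball x 1, ‖f y • fderiv ℝ Φ (x' - y)‖ ≤
      C * (1 + (‖x‖ + 1)) ^ (2 * N - 1) * ‖f y / ((1 + ‖y‖) ^ (2 * N - 1) : ℝ)‖ := by
    intro y x' hx'
    have h1 : ‖x'‖ ≤ ‖x‖ + 1 := norm_le_of_mem_closedBall (ball_subset_closedBall hx')
    rw [norm_smul, mul_comm]
    exact (mul_le_mul_of_nonneg_right (hC _) (norm_nonneg _)).trans (peetre hC0 h1 y _)
  have hi := hf.norm.const_mul (C * (1 + (‖x‖ + 1)) ^ (2 * N - 1))
  have hd : HasFDerivAt (fun x => ∫ y, Φ (x - y) * f y) (∫ y, f y • fderiv ℝ Φ (x - y)) x := by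
    refine hasFDerivAt_integral_of_dominated_of_fderiv_le
      (F' := fun x y => f y • fderiv ℝ Φ (x - y)) (ball_mem_nhds x one_pos)
      (Eventually.of_forall fun x' => (far_int L hN hs h hf x').aestronglyMeasurable)
      (far_int L hN hs h hf x) hm' (Eventually.of_forall hb) hi
      (Eventually.of_forall fun y x' _ => ?_)
    have h1 : HasFDerivAt Φ (fderiv ℝ Φ (x' - y)) (x' - y) :=
      (h.smooth.differentiable (by simp) _).hasFDerivAt
    have h2 : HasFDerivAt (fun x => Φ (x - y)) (fderiv ℝ Φ (x' - y)) x' := by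
      have h3 := h1.comp x' ((hasFDerivAt_id x').sub_const y)
      rw [ContinuousLinearMap.comp_id] at h3
      exact h3
    exact h2.mul_const (f y)
  refine ⟨hd.differentiableAt, fun v => ?_⟩
  rw [hd.fderiv, ContinuousLinearMap.integral_apply
    (hi.mono' hm' (Eventually.of_forall fun y => hb y x (mem_ball_self one_pos)))]
  simp [mul_comm]

theorem far_smooth (L : Lv0) (hN : 1 ≤ N) {s : ℝ} (hs : 0 < s) {f : E N → ℂ} (hf : DI f) (n : ℕ) :
    ∀ Φ : E N → ℂ, Gd s Φ → ContDiff ℝ n fun x => ∫ y, Φ (x - y) * f y := by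
  induction n with
  | zero =>
    intro Φ h
    exact contDiff_zero.2 (continuous_iff_continuousAt.2 fun x =>
      (far_deriv L hN hs h hf x).1.continuousAt)
  | succ n ih =>
    intro Φ h
    rw [Nat.cast_succ, contDiff_succ_iff_fderiv_apply]
    refine ⟨fun x => (far_deriv L hN hs h hf x).1, by simp, fun v => ?_⟩
    have := ih _ (h.deriv L hN v)
    rwa [← funext fun x => (far_deriv L hN hs h hf x).2 v] at this

/-! ### The near part -/

/-- A closed shell. -/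
def Sl (N : ℕ) (r R : ℝ) : Set (E N) := {y | r / 2 ≤ ‖y‖} ∩ closedBall 0 (R + r / 2)

theorem sl_compact (r R : ℝ) : IsCompact (Sl N r R) :=
  (isCompact_closedBall _ _).inter_left (isClosed_le continuous_const continuous_norm)

theorem sl_zero {r : ℝ} (hr : 0 < r) (R : ℝ) : (0 : E N) ∉ Sl N r R := fun h => by
  have : r / 2 ≤ ‖(0 : E N)‖ := h.1
  rw [norm_zero] at this
  linarith

theorem sl_mem {r R : ℝ} {x ξ : E N} (h1 : r < ‖x‖) (h2 : ‖x‖ ≤ R) (h3 : ‖ξ‖ < r / 2) :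
    x - ξ ∈ Sl N r R := by
  refine ⟨?_, ?_⟩
  · have := norm_sub_norm_le x ξ
    show r / 2 ≤ ‖x - ξ‖
    linarith
  · rw [mem_closedBall_zero_iff]
    have := norm_sub_le x ξ
    linarith

theorem sl_memLp {r : ℝ} (hr : 0 < r) (R : ℝ) {h : E N → ℂ} (hh : L2 (E0 N) h) :
    MemLp ((Sl N r R).indicator h) 2 volume ∧ Integrable ((Sl N r R).indicator h) := by
  have hK := sl_compact (N := N) r R
  have h1 := hh _ hK (sl_zero hr R)
  rw [inter_eq_right.2 (subset_compl_singleton_iff.2 (sl_zero hr R))] at h1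
  refine ⟨(memLp_indicator_iff_restrict hK.measurableSet).2 h1,
    (integrable_indicator_iff hK.measurableSet).2 ?_⟩
  haveI : IsFiniteMeasure (volume.restrict (Sl N r R)) :=
    isFiniteMeasure_restrict.2 hK.measure_lt_top.ne
  exact h1.integrable (by norm_num)

theorem near_l2 (L : Lv0) {r : ℝ} (hr : 0 < r) {κ : E N → ℂ} (hκ : Integrable κ)
    (h0 : ∀ y, r / 2 ≤ ‖y‖ → κ y = 0) {h : E N → ℂ} (hh : L2 (E0 N) h) :
    L2 {z : E N | r < ‖z‖} fun x => ∫ y, κ (x - y) * h y := by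
  intro K hK _
  obtain ⟨R, hR⟩ := hK.isBounded.exists_norm_le
  have h1 := ((L.yg N).1 κ _ hκ (sl_memLp hr R hh).1).1
  have hU : MeasurableSet ({z : E N | r < ‖z‖} ∩ K) :=
    (isOpen_lt continuous_const continuous_norm).measurableSet.inter hK.measurableSet
  refine (h1.restrict ({z : E N | r < ‖z‖} ∩ K)).ae_eq ?_
  filter_upwards [ae_restrict_mem hU] with x hx
  refine integral_congr_ae (Eventually.of_forall fun y => ?_)
  by_cases hy : r / 2 ≤ ‖x - y‖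
  · simp [h0 _ hy]
  · have := sl_mem hx.1 (hR x hx.2) (not_le.1 hy)
    rw [sub_sub_cancel] at this
    simp only [indicator_of_mem this]

theorem near_fub {r : ℝ} (hr : 0 < r) {κ : E N → ℂ} (hκ : Integrable κ)
    (h0 : ∀ y, r / 2 ≤ ‖y‖ → κ y = 0) {h φ : E N → ℂ} (hh : L2 (E0 N) h)
    (hφ : Test {z : E N | r < ‖z‖} φ) :
    ∫ x in {z : E N | r < ‖z‖}, (∫ y, κ (x - y) * h y) * φ x =
      ∫ ξ, κ ξ * ∫ y, h y * φ (y + ξ) := by
  obtain ⟨R, hR⟩ := hφ.2.1.isCompact.isBounded.exists_norm_le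
  obtain ⟨B, hB⟩ := hφ.1.continuous.bounded_above_of_compact_support hφ.2.1
  have h1 := (hκ.convolution_integrand (ContinuousLinearMap.mul ℝ ℂ) (sl_memLp hr R hh).2).mul_bdd
    (g := fun p => φ p.1) (hφ.1.continuous.comp continuous_fst).aestronglyMeasurable
    (Eventually.of_forall fun p => hB p.1)
  have h2 : Integrable (Function.uncurry fun x ξ : E N => κ ξ * h (x - ξ) * φ x)
      (volume.prod volume) := by
    refine h1.congr (Eventually.of_forall fun p => ?_)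
    show κ p.2 * (Sl N r R).indicator h (p.1 - p.2) * φ p.1 = κ p.2 * h (p.1 - p.2) * φ p.1
    by_cases hy : r / 2 ≤ ‖p.2‖
    · simp [h0 _ hy]
    · by_cases hx : p.1 ∈ tsupport φ
      · rw [indicator_of_mem (sl_mem (hφ.2.2 hx) (hR _ hx) (not_le.1 hy))]
      · simp [image_eq_zero_of_notMem_tsupport hx]
  rw [setIntegral_eq_integral_of_forall_compl_eq_zero fun x hx => by
    rw [image_eq_zero_of_notMem_tsupport fun h' => hx (hφ.2.2 h'), mul_zero]]
  have h3 : ∀ x, (∫ y, κ (x - y) * h y) * φ x = ∫ ξ, κ ξ * h (x - ξ) * φ x := by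
    intro x
    rw [integral_mul_const, ← integral_sub_left_eq_self (fun ξ => κ ξ * h (x - ξ)) volume x]
    simp only [sub_sub_cancel]
  simp only [h3]
  rw [integral_integral_swap h2]
  refine integral_congr_ae (Eventually.of_forall fun ξ => ?_)
  simp only [mul_assoc]
  rw [integral_const_mul, ← integral_add_right_eq_self (fun x => h (x - ξ) * φ x) ξ]
  simp only [add_sub_cancel_right]

theorem test_shift {r : ℝ} {φ : E N → ℂ} (hφ : Test {z : E N | r < ‖z‖} φ) {ξ : E N}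
    (hξ : ‖ξ‖ < r) : Test (E0 N) (fun y => φ (y + ξ)) ∧ φ (0 + ξ) = 0 := by
  have h1 : ξ ∉ tsupport φ := fun h => lt_asymm hξ (hφ.2.2 h)
  refine ⟨⟨hφ.1.comp (contDiff_id.add contDiff_const),
    hφ.2.1.comp_homeomorph (Homeomorph.addRight ξ), ?_⟩, ?_⟩
  · rw [subset_compl_singleton_iff, notMem_tsupport_iff_eventuallyEq]
    rw [notMem_tsupport_iff_eventuallyEq] at h1
    have h2 : Tendsto (fun y : E N => y + ξ) (𝓝 0) (𝓝 ξ) := by
      simpa using (continuous_add_const ξ).tendsto 0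
    exact h2.eventually h1
  · rw [zero_add, image_eq_zero_of_notMem_tsupport h1]

theorem near_wd (L : Lv0) {r : ℝ} (hr : 0 < r) {κ : E N → ℂ} (hκ : Integrable κ)
    (h0 : ∀ y, r / 2 ≤ ‖y‖ → κ y = 0) {f g : E N → ℂ} (hf : L2 (E0 N) f) (hg : L2 (E0 N) g)
    {v : E N} (hw : WD (E0 N) v f g) :
    WD {z : E N | r < ‖z‖} v (fun x => ∫ y, κ (x - y) * f y) fun x => ∫ y, κ (x - y) * g y := by
  intro ψ hψ
  have hU : IsOpen {z : E N | r < ‖z‖} := isOpen_lt continuous_const continuous_norm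
  have hU0 : (0 : E N) ∉ {z : E N | r < ‖z‖} := by simpa using hr.le
  have hψ' := ((L.t1 N _ hU hU0).2.2.2.1 ψ hψ).2.1 v
  rw [near_fub hr hκ h0 hf hψ', near_fub hr hκ h0 hg hψ, ← integral_neg]
  refine integral_congr_ae (Eventually.of_forall fun ξ => ?_)
  by_cases hy : r / 2 ≤ ‖ξ‖
  · simp [h0 _ hy]
  · have hξ : ‖ξ‖ < r := by linarith [not_le.1 hy]
    obtain ⟨h1, h2⟩ := test_shift hψ hξ
    obtain ⟨-, h3⟩ := test_shift hψ' hξ
    have h4 := hw _ h1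
    simp only [fderiv_comp_add_right] at h4
    rw [setIntegral_eq_integral_of_forall_compl_eq_zero fun x hx => by
        rw [show x = 0 by simpa using hx, h3, mul_zero],
      setIntegral_eq_integral_of_forall_compl_eq_zero fun x hx => by
        rw [show x = 0 by simpa using hx, h2, mul_zero]] at h4
    simp only [h4, mul_neg]

theorem near_sob (L : Lv0) {r : ℝ} (hr : 0 < r) {κ : E N → ℂ} (hκ : Integrable κ)
    (h0 : ∀ y, r / 2 ≤ ‖y‖ → κ y = 0) (k : ℕ) : ∀ f : E N → ℂ, Sob (E0 N) k f →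
      Sob {z : E N | r < ‖z‖} k fun x => ∫ y, κ (x - y) * f y := by
  induction k with
  | zero => exact fun f hf => near_l2 L hr hκ h0 hf
  | succ k ih =>
    intro f hf
    refine ⟨near_l2 L hr hκ h0 hf.1, fun v => ?_⟩
    obtain ⟨g, hw, hg⟩ := hf.2 v
    have hg2 := (((L.sb N).1 _ isOpen_E0 cone_E0.1 k).1 g hg).1
    exact ⟨_, near_wd L hr hκ h0 hf.1 hg2 hw, ih g hg⟩

theorem ec (L : Lv0) : StmtEC := by
  intro N k j f hf hD
  have hN : 1 ≤ N := j.pos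
  refine (L.sb N).2 k _ fun r hr => ?_
  have hU : IsOpen {z : E N | r < ‖z‖} := isOpen_lt continuous_const continuous_norm
  have hU0 : (0 : E N) ∉ {z : E N | r < ‖z‖} := by simpa using hr.le
  have hs : 0 < r / 4 := by positivity
  obtain ⟨-, -, -, -, hSym, hr'⟩ := (L.bm1 N hN).2.1 j
  obtain ⟨-, hki, hy⟩ := hr' _ hs
  have hG : Gd (r / 4) (Phi j (r / 4)) :=
    ⟨2 * N - 1, Phi j 1, (((r / 4) ^ (2 * N - 1) : ℝ) : ℂ)⁻¹, le_rfl, hSym,
      funext fun y => by rw [(hy y).1, div_eq_inv_mul]⟩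
  have hA := near_sob L hr hki (fun y h => ((hy y).2.1 (by linarith)).2) k f hf
  have hB : Sob {z : E N | r < ‖z‖} k fun x => ∫ y, Phi j (r / 4) (x - y) * f y :=
    ((L.sb N).1 _ hU hU0 k).2.2.1 _
      (contDiff_infty.2 fun n => far_smooth L hN hs hD n _ hG).contDiffOn
  have hS := ((((L.sb N).1 _ hU hU0 k).1 _ hA).2.2.1 _ hB).1
  refine (((L.sb N).1 _ hU hU0 k).1 _ hS).2.1 _ ?_
  filter_upwards [((L.bm2 N hN).2.2 f hD j).1] with x hx _
  have h1 := far_int L hN hs hG hD x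
  simp only [kk, sub_mul]
  rw [integral_sub hx h1, sub_add_cancel]
  rfl

end Pool.Agent.MP_fcd29e_an.H4
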