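import Pool.Agent.MP_fcd29e_an.H81.Spec2

/-!
Chords along the flow.
-/

set_option autoImplicit false

open Pool.Agent.MP_fcd29e_an.H81 MeasureTheory Complex Set Filter Topology Metric
open scoped ContDiff ComplexConjugate ENNReal NNReal

namespace Pool.Agent.MP_fcd29e_an.H4

variable {N : ℕ}

theorem taylor2 {f : E N → ℂ} {S : Set (E N)} (hS : Convex ℝ S) (hc : IsCompact S)
    (hf : ∀ z ∈ S, ContDiffAt ℝ ∞ f z) : ∃ M : ℝ, 0 ≤ M ∧ ∀ x ∈ S, ‖fderiv ℝ f x‖ ≤ M ∧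
      ∀ y ∈ S, ‖f y - f x - fderiv ℝ f x (y - x)‖ ≤ M * ‖y - x‖ ^ 2 := by
  have h1 : ContDiffOn ℝ ∞ (fderiv ℝ f) S := fun z hz =>
    ((hf z hz).fderiv_right (m := ∞) le_rfl).contDiffWithinAt
  obtain ⟨M₁, hM₁⟩ := h1.exists_lipschitzOnWith (by simp) hS hc
  obtain ⟨M₂, hM₂⟩ := hc.exists_bound_of_continuousOn h1.continuousOn
  refine ⟨max M₁ M₂, le_max_of_le_left M₁.2, fun x hx => ⟨le_max_of_le_right (hM₂ x hx),
    fun y hy => ?_⟩⟩
  have h2 := Convex.norm_image_sub_le_of_norm_fderiv_le' (𝕜 := ℝ) (f := f) (φ := fderiv ℝ f x)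
    (C := max (M₁ : ℝ) M₂ * ‖y - x‖) (s := S ∩ closedBall x ‖y - x‖) (x := x) (y := y)
    (fun z hz => ContDiffAt.da (hf z hz.1)) (fun z hz => by
      have := hM₁.dist_le_mul z hz.1 x hx
      rw [dist_eq_norm] at this
      exact this.trans (mul_le_mul (le_max_left _ _) hz.2 dist_nonneg
        (le_max_of_le_left M₁.2)))
    (hS.inter (convex_closedBall _ _)) ⟨hx, mem_closedBall_self (norm_nonneg _)⟩
    ⟨hy, by rw [mem_closedBall, dist_eq_norm]⟩
  calc _ ≤ _ := h2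
    _ = _ := by ring

theorem av_Xf {ρ : E N → ℝ} {u z : E N} (w : E N) (h : av ρ z u ≠ 0) :
    av ρ z (Xf ρ u w z) = 0 := by
  have h1 : av ρ z (Xf ρ u w z) = av ρ z w - av ρ z w / av ρ z u * av ρ z u := by
    simp only [Xf]
    generalize av ρ z w / av ρ z u = c
    simp only [av, PiLp.sub_apply, PiLp.smul_apply, smul_eq_mul, mul_sub, Finset.sum_sub_distrib,
      Finset.mul_sum]
    congr 1
    exact Finset.sum_congr rfl fun j _ => by ring
  rw [h1, div_mul_cancel₀ _ h, sub_self]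

theorem skew (L : Lv0) {ρ : E N → ℝ} {x : E N} (hx : ContDiffAt ℝ ∞ ρ x) (ξ h : E N) {β : ℂ}
    (hβ : ∀ j, ∑ k, conj (ξ k) * dz j (dzb k (cx ρ)) x = β * dz j (cx ρ) x) :
    ∑ j, fderiv ℝ (dz j (cx ρ)) x ξ * h j - ∑ j, fderiv ℝ (dz j (cx ρ)) x h * ξ j =
      β * av ρ x h - conj (β * av ρ x h) := by
  have hc := contDiffAt_cx hx
  have hH := ((L.pf N).2.2.1 ρ x hx).1
  have e1 : ∑ j, (∑ l, conj (ξ l) * dz j (dzb l (cx ρ)) x) * h j = β * av ρ x h := by
    simp only [hβ, av, Finset.mul_sum]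
    exact Finset.sum_congr rfl fun j _ => by ring
  have e2 : ∑ j, (∑ l, conj (h l) * dz j (dzb l (cx ρ)) x) * ξ j = conj (β * av ρ x h) := by
    rw [← e1]
    simp only [map_sum, map_mul, conj_conj, hH, Finset.sum_mul]
    rw [Finset.sum_comm]
    exact Finset.sum_congr rfl fun j _ => Finset.sum_congr rfl fun l _ => by ring
  have e3 : ∑ j, (∑ l, ξ l * dz l (dz j (cx ρ)) x) * h j =
      ∑ j, (∑ l, h l * dz l (dz j (cx ρ)) x) * ξ j := by
    simp only [Finset.sum_mul]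
    rw [Finset.sum_comm]
    exact Finset.sum_congr rfl fun j _ => Finset.sum_congr rfl fun l _ => by
      rw [dz_dz_comm l j hc]; ring
  simp only [fderiv_eq, Finset.sum_add_distrib, add_mul, ← dz_dzb_comm _ _ hc]
  rw [e1, e2, e3]
  ring

theorem rate (L : Lv0) {ρ : E N → ℝ} {K : Set (E N)} (hρ : Dom ρ) (hK : KS ρ K) {p : E N} {r : ℝ}
    {M : ℝ≥0} {w : E N} (hR : closedBall p r ⊆ Reg ρ)
    (hu : ∀ z ∈ closedBall p r, av ρ z (nv ρ p) ≠ 0)
    (hL : LipschitzOnWith M (Xf ρ (nv ρ p) w) (closedBall p r)) :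
    ∃ B C : ℝ, 0 < B ∧ 0 ≤ C ∧ ∀ x ∈ K ∩ closedBall p r, ∀ y ∈ closedBall p r,
      ‖∑ j, (fderiv ℝ (dz j (cx ρ)) x (Xf ρ (nv ρ p) w x) * (y - x) j +
        dz j (cx ρ) x * (Xf ρ (nv ρ p) w y - Xf ρ (nv ρ p) w x) j)‖ ≤
        B * ‖av ρ x (y - x)‖ + C * ‖y - x‖ ^ 2 := by
  set X := Xf ρ (nv ρ p) w with hX
  have hc := isCompact_closedBall p r
  have hs : ∀ z ∈ closedBall p r, ContDiffAt ℝ ∞ ρ z := fun z hz =>
    hρ.smooth.contDiffAt (isOpen_E0.mem_nhds (hR hz).1)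
  have ha : ∀ j, ∀ z ∈ closedBall p r, ContDiffAt ℝ ∞ (dz j (cx ρ)) z := fun j z hz =>
    contDiffAt_dz j (contDiffAt_cx (hs z hz))
  choose T hT0 hT using fun j => taylor2 (convex_closedBall p r) hc (ha j)
  obtain ⟨A, hA⟩ := hc.exists_bound_of_continuousOn hL.continuousOn
  have hb : ContinuousOn (fun z => (∑ j, (∑ k, conj (X z k) * dz j (dzb k (cx ρ)) z) * nv ρ p j) /
      av ρ z (nv ρ p)) (closedBall p r) := by
    refine ContinuousOn.div (continuousOn_finsetSum _ fun j _ => ContinuousOn.mul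
      (continuousOn_finsetSum _ fun k _ => ContinuousOn.mul ?_ fun z hz => ?_) continuousOn_const)
      (continuousOn_finsetSum _ fun j _ => ContinuousOn.mul (fun z hz => ?_) continuousOn_const) hu
    · exact (continuous_conj.comp (contDiff_coord k (n := 0)).continuous).comp_continuousOn
        hL.continuousOn
    · exact (contDiffAt_dz j
        (contDiffAt_dzb k (contDiffAt_cx (hs z hz)))).continuousAt.continuousWithinAt
    · exact (ha j z hz).continuousAt.continuousWithinAt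
  obtain ⟨B, hB⟩ := hc.exists_bound_of_continuousOn hb
  refine ⟨2 * |B| + 1, ∑ j, T j * (M + |A|), by positivity,
    Finset.sum_nonneg fun j _ => mul_nonneg (hT0 j) (by positivity), fun x hx y hy => ?_⟩
  obtain ⟨β, hβ⟩ := (((L.pf N).2.2.2 ρ hρ).2.2.2.2.2.2 x (hR hx.2).1 (hK.bd x hx.1)).2.2
    (hK.null x hx.1) (X x) (av_Xf w (hu x hx.2))
  have hβB : ‖β‖ ≤ |B| := by
    have h1 := hB x hx.2
    have h2 : ∑ j, (∑ k, conj (X x k) * dz j (dzb k (cx ρ)) x) * nv ρ p j =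
        β * av ρ x (nv ρ p) := by
      simp only [hβ, av, Finset.mul_sum, mul_assoc]
    rw [h2, mul_div_cancel_right₀ _ (hu x hx.2)] at h1
    exact h1.trans (le_abs_self B)
  have h0x : ∑ j, dz j (cx ρ) x * X x j = 0 := av_Xf w (hu x hx.2)
  have h0y : ∑ j, dz j (cx ρ) y * X y j = 0 := av_Xf w (hu y hy)
  have hsk := skew L (hs x hx.2) (X x) (y - x) hβ
  have e : ∑ j, (fderiv ℝ (dz j (cx ρ)) x (X x) * (y - x) j + dz j (cx ρ) x * (X y - X x) j) =
      (β * av ρ x (y - x) - conj (β * av ρ x (y - x))) -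
        ∑ j, (fderiv ℝ (dz j (cx ρ)) x (y - x) * (X y - X x) j +
          (dz j (cx ρ) y - dz j (cx ρ) x - fderiv ℝ (dz j (cx ρ)) x (y - x)) * X y j) := by
    rw [← hsk]
    simp only [PiLp.sub_apply (x := X y), mul_sub, sub_mul, Finset.sum_add_distrib,
      Finset.sum_sub_distrib, h0x, h0y]
    ring
  rw [e]
  refine (norm_sub_le _ _).trans (add_le_add ?_ ?_)
  · refine (norm_sub_le _ _).trans ?_
    rw [Complex.norm_conj, norm_mul]
    nlinarith [norm_nonneg (av ρ x (y - x)), mul_le_mul_of_nonneg_right hβB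
      (norm_nonneg (av ρ x (y - x)))]
  · rw [Finset.sum_mul]
    refine (norm_sum_le _ _).trans (Finset.sum_le_sum fun j _ => (norm_add_le _ _).trans ?_)
    have h1 : ‖fderiv ℝ (dz j (cx ρ)) x (y - x)‖ ≤ T j * ‖y - x‖ :=
      (ContinuousLinearMap.le_opNorm _ _).trans
        (mul_le_mul_of_nonneg_right (hT j x hx.2).1 (norm_nonneg _))
    have h2 : ‖(X y - X x) j‖ ≤ M * ‖y - x‖ := by
      have := hL.dist_le_mul y hy x hx.2
      rw [dist_eq_norm, dist_eq_norm] at this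
      exact (PiLp.norm_apply_le _ j).trans this
    have h3 : ‖X y j‖ ≤ |A| := (PiLp.norm_apply_le _ j).trans ((hA y hy).trans (le_abs_self A))
    have h4 := (hT j x hx.2).2 y hy
    have h5 := hT0 j
    rw [norm_mul, norm_mul]
    calc _ ≤ T j * ‖y - x‖ * (M * ‖y - x‖) + T j * ‖y - x‖ ^ 2 * |A| :=
          add_le_add (mul_le_mul h1 h2 (norm_nonneg _) (by positivity))
            (mul_le_mul h4 h3 (norm_nonneg _) (by positivity))
      _ = _ := by ring

theorem ch (L : Lv0) : StmtCH := by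
  intro N ρ K hρ hK p r τ M w hR hr hu hL
  have hsub : closedBall p r ⊆ closedBall p (2 * r) := closedBall_subset_closedBall (by linarith)
  obtain ⟨B, C, hB, hC, hrate⟩ := rate L hρ hK hR hu hL
  set X := Xf ρ (nv ρ p) w with hX
  refine ⟨Real.exp (B * τ) * (1 + C * Real.exp (M * τ) ^ 2 / B), by positivity,
    fun x y hx hy t ht => ?_⟩
  have hd := dist_le_of_trajectories_ODE_of_mem (v := fun _ => X)
    (s := fun _ => closedBall p (2 * r)) (K := M) (a := 0) (b := τ) (δ := ‖y 0 - x 0‖)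
    (fun _ _ => hL) (fun s hs => (hy s hs).1.continuousAt.continuousWithinAt)
    (fun s hs => (hy s (Ico_subset_Icc_self hs)).1.hasDerivWithinAt)
    (fun s hs => hsub (hy s (Ico_subset_Icc_self hs)).2.2)
    (fun s hs => (hx s hs).1.continuousAt.continuousWithinAt)
    (fun s hs => (hx s (Ico_subset_Icc_self hs)).1.hasDerivWithinAt)
    (fun s hs => hsub (hx s (Ico_subset_Icc_self hs)).2.2) (dist_eq_norm _ _).le
  have hh : ∀ s ∈ Icc 0 τ, ‖y s - x s‖ ≤ ‖y 0 - x 0‖ * Real.exp (M * τ) := fun s hs => by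
    have := hd s hs
    rw [dist_eq_norm, sub_zero] at this
    exact this.trans (mul_le_mul_of_nonneg_left
      (Real.exp_le_exp.2 (mul_le_mul_of_nonneg_left hs.2 M.2)) (norm_nonneg _))
  have hu' : ∀ s ∈ Icc 0 τ, HasDerivAt (fun s => av ρ (x s) (y s - x s))
      (∑ j, (fderiv ℝ (dz j (cx ρ)) (x s) (X (x s)) * (y s - x s) j +
        dz j (cx ρ) (x s) * (X (y s) - X (x s)) j)) s := by
    intro s hs
    refine HasDerivAt.fun_sum fun j _ => HasDerivAt.fun_mul ?_ ?_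
    · have h1 : ContDiffAt ℝ ∞ (dz j (cx ρ)) (x s) := contDiffAt_dz j (contDiffAt_cx
        (hρ.smooth.contDiffAt (isOpen_E0.mem_nhds (hR (hsub (hx s hs).2.2)).1)))
      exact (ContDiffAt.da h1).hasFDerivAt.comp_hasDerivAt s (hx s hs).1
    · have h1 := (ContDiffAt.da (contDiff_coord j).contDiffAt).hasFDerivAt.comp_hasDerivAt s
        ((hy s hs).1.sub (hx s hs).1)
      rw [fderiv_coord] at h1
      exact h1
  have hm : ∀ s ∈ Icc 0 t, t - s ∈ Icc 0 τ := fun s hs =>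
    ⟨sub_nonneg.2 hs.2, by linarith [hs.1, ht.2]⟩
  have hv : ∀ s ∈ Icc 0 t, HasDerivAt (fun s => av ρ (x (t - s)) (y (t - s) - x (t - s))) _ s :=
    fun s hs => (hu' _ (hm s hs)).comp_const_sub t s
  have hg := norm_le_gronwallBound_of_norm_deriv_right_le (δ := ‖av ρ (x t) (y t - x t)‖) (K := B)
    (ε := C * (‖y 0 - x 0‖ * Real.exp (M * τ)) ^ 2)
    (fun s hs => (hv s hs).continuousAt.continuousWithinAt)
    (fun s hs => (hv s (Ico_subset_Icc_self hs)).hasDerivWithinAt) (by simp) (fun s hs => by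
      have h1 := hm s (Ico_subset_Icc_self hs)
      rw [norm_neg]
      exact (hrate _ ⟨(hx _ h1).2.1, hsub (hx _ h1).2.2⟩ _ (hsub (hy _ h1).2.2)).trans
        (add_le_add_right (mul_le_mul_of_nonneg_left
          (pow_le_pow_left₀ (norm_nonneg _) (hh _ h1) 2) hC) _))
    t ⟨ht.1, le_rfl⟩
  rw [gronwallBound_of_K_ne_0 hB.ne', sub_self, sub_zero] at hg
  refine hg.trans ?_
  have h1 : Real.exp (B * t) ≤ Real.exp (B * τ) :=
    Real.exp_le_exp.2 (mul_le_mul_of_nonneg_left ht.2 hB.le)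
  set a := ‖av ρ (x t) (y t - x t)‖
  set b := ‖y 0 - x 0‖ ^ 2 with hb
  set c := C * Real.exp (M * τ) ^ 2 / B with hc
  have ha0 : 0 ≤ a := norm_nonneg _
  have hb0 : 0 ≤ b := sq_nonneg _
  have hc0 : 0 ≤ c := by positivity
  have h2 : C * (‖y 0 - x 0‖ * Real.exp (M * τ)) ^ 2 / B = c * b := by rw [hc, hb]; ring
  show a * Real.exp (B * t) + _ / B * (Real.exp (B * t) - 1) ≤ _
  rw [h2]
  have h3 := (Real.exp_pos (B * τ)).le
  nlinarith [mul_le_mul_of_nonneg_left h1 ha0, mul_le_mul_of_nonneg_left h1 (mul_nonneg hc0 hb0),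
    mul_nonneg hc0 hb0, mul_nonneg h3 hb0, mul_nonneg h3 (mul_nonneg hc0 ha0)]

end Pool.Agent.MP_fcd29e_an.H4
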