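import Pool.Agent.MP_fcd29e_an.H11.CS

/-! The term `κ |F|²`: pointwise identities. -/

set_option autoImplicit false

open Complex Set Filter Topology Metric
open scoped ContDiff ComplexConjugate

namespace Pool.Agent.MP_fcd29e_an.H4.CLG

open Pool.Agent.MP_fcd29e_an.H11

theorem two_le : (2 : WithTop ℕ∞) ≤ ∞ := WithTop.coe_le_coe.2 (le_top : (2 : ℕ∞) ≤ ⊤)

section fin
variable {β : Type} [Fintype β]

theorem nsq_nonneg (x : β → ℂ) : 0 ≤ nsq x := Finset.sum_nonneg fun _ _ => by positivity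

theorem le_nsq (x : β → ℂ) : ‖x‖ ^ 2 ≤ nsq x := by
  have : ‖x‖ ≤ Real.sqrt (nsq x) := (pi_norm_le_iff_of_nonneg (Real.sqrt_nonneg _)).2 fun i =>
    Real.le_sqrt_of_sq_le (Finset.single_le_sum (f := fun k => ‖x k‖ ^ 2)
      (fun _ _ => by positivity) (Finset.mem_univ i))
  exact (pow_le_pow_left₀ (norm_nonneg _) this 2).trans_eq (Real.sq_sqrt (nsq_nonneg x))

theorem nsq_le (x : β → ℂ) : nsq x ≤ Fintype.card β * ‖x‖ ^ 2 := by
  refine (Finset.sum_le_sum fun i _ =>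
    pow_le_pow_left₀ (norm_nonneg _) (norm_le_pi_norm x i) 2).trans_eq ?_
  simp

theorem cross (x y : β → ℂ) (a b θ : ℝ) (h0 : 0 ≤ θ) (h1 : θ ≤ 1 / 2) :
    0 ≤ 4 * (a * (ip x y).re + b * (ip (I • x) y).re) + 4 * (1 - θ) * nsq x +
      (1 + 2 * θ) * (a ^ 2 + b ^ 2) * nsq y := by
  simp only [ip, nsq, Complex.re_sum, Finset.mul_sum, ← Finset.sum_add_distrib]
  refine Finset.sum_nonneg fun k _ => ?_
  refine le_of_mul_le_mul_left (a := 1 - θ) ?_ (by linarith)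
  have e : 0 ≤ (θ * (1 - 2 * θ)) * ((a ^ 2 + b ^ 2) * ((y k).re ^ 2 + (y k).im ^ 2)) :=
    mul_nonneg (mul_nonneg h0 (by linarith)) (by positivity)
  simp only [Complex.sq_norm, normSq_apply, Pi.smul_apply, smul_eq_mul, mul_re, mul_im, conj_re,
    conj_im, I_re, I_im]
  nlinarith [sq_nonneg (2 * (1 - θ) * (x k).re + (a * (y k).re + b * (y k).im)),
    sq_nonneg (2 * (1 - θ) * (x k).im + (a * (y k).im - b * (y k).re))]

theorem hs_nsq (hHS : SHS) (hLV : SLV) (u : β → ℂ) :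
    hs nsq (0 : β → ℂ) u = 2 * nsq u ∧ fderiv ℝ nsq (0 : β → ℂ) = 0 ∧
      ContDiffAt ℝ 2 nsq (0 : β → ℂ) := by
  have k := fun p v => hLV.nsq (β → ℂ) β (fun q => q) p v analyticAt_id
  have c : ContDiffAt ℝ 2 nsq (0 : β → ℂ) := (k 0 0).1.self_of_nhds.of_le two_le
  have d : ∀ p v : β → ℂ, fderiv ℝ nsq p v = 2 * (ip v p).re := fun p v => by
    simpa using (k p v).2.2
  refine ⟨?_, ContinuousLinearMap.ext fun v => by simp [d, ip], c⟩
  have h := (hHS.line (β → ℂ) nsq 0 u 0 (by simpa using c)).2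
  have e : (fun a : ℝ => fderiv ℝ nsq ((0 : β → ℂ) + a • u) u) = fun a => a * (2 * nsq u) := by
    funext a
    rw [d]
    simp only [ip, nsq, Complex.re_sum, Finset.mul_sum]
    refine Finset.sum_congr rfl fun k _ => ?_
    simp [Complex.sq_norm, normSq_apply]
    ring
  rw [e] at h
  simpa using h.unique (hasDerivAt_mul_const (2 * nsq u))

end fin

variable {X β : Type} [NormedAddCommGroup X] [NormedSpace ℝ X] [NormedSpace ℂ X]
  [IsScalarTower ℝ ℂ X] [Fintype β]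

theorem lev_ge (hHS : SHS) (hLV : SLV) {k : X → ℝ} {F : X → β → ℂ} {p : X}
    (hk : ContDiffAt ℝ 2 k p) (h0 : 0 < k p) (hF : AnalyticAt ℂ F p) (v : X) {θ : ℝ}
    (t0 : 0 ≤ θ) (t1 : θ ≤ 1 / 2) :
    k p * (4 * θ * nsq (fderiv ℂ F p v) + nsq (F p) * (lev (fun q => Real.log (k q)) p v -
      2 * θ * (fderiv ℝ (fun q => Real.log (k q)) p v ^ 2 +
        fderiv ℝ (fun q => Real.log (k q)) p (I • v) ^ 2))) ≤
      lev (fun q => k q * nsq (F q)) p v := by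
  have hψ : ContDiffAt ℝ 2 (fun q => Real.log (k q)) p := hk.log h0.ne'
  have e : k =ᶠ[𝓝 p] fun q => Real.exp (Real.log (k q)) :=
    (hk.continuousAt.eventually (lt_mem_nhds h0)).mono fun q hq => (Real.exp_log hq).symm
  have h1 : ∀ u, hs k p u = k p * hs (fun q => Real.log (k q)) p u +
      k p * fderiv ℝ (fun q => Real.log (k q)) p u ^ 2 := fun u => by
    rw [hHS.congr X _ _ p u e, hHS.comp X _ Real.exp p u hψ Real.contDiff_exp.contDiffAt,
      Real.deriv_exp, Real.deriv_exp, Real.exp_log h0]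
  have h2 : ∀ u, fderiv ℝ k p u = k p * fderiv ℝ (fun q => Real.log (k q)) p u := fun u => by
    rw [((hk.differentiableAt (by simp)).hasFDerivAt.log h0.ne').fderiv]
    simp [h0.ne']
  have n := fun u => hLV.nsq X β F p u hF
  have hN : ContDiffAt ℝ 2 (fun q => nsq (F q)) p := (n v).1.self_of_nhds.of_le two_le
  have h3 := (n v).2.1
  have h4 := cross (fderiv ℂ F p v) (F p) (fderiv ℝ (fun q => Real.log (k q)) p v)
    (fderiv ℝ (fun q => Real.log (k q)) p (I • v)) θ t0 t1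
  have h5 := mul_nonneg h0.le h4
  rw [lev] at h3
  rw [lev, lev, (hHS.add X _ _ p v hk hN).2.2, (hHS.add X _ _ p _ hk hN).2.2, h1, h1, h2, h2,
    (n v).2.2, (n (I • v)).2.2, (fderiv ℂ F p).map_smul]
  have h6 : k p * hs (fun q => nsq (F q)) p v + k p * hs (fun q => nsq (F q)) p (I • v) =
      k p * (4 * nsq (fderiv ℂ F p v)) := by rw [← h3]; ring
  linarith

theorem hs_eq (hHS : SHS) (hLV : SLV) {k : X → ℝ} {F : X → β → ℂ} {p : X}
    (hk : ContDiffAt ℝ 2 k p) (hF : AnalyticAt ℂ F p) (h0 : F p = 0) (v : X) :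
    hs (fun q => k q * nsq (F q)) p v = k p * (2 * nsq (fderiv ℂ F p v)) := by
  have n := hLV.nsq X β F p v hF
  have hN : ContDiffAt ℝ 2 (fun q => nsq (F q)) p := n.1.self_of_nhds.of_le two_le
  obtain ⟨a1, a2, a3⟩ := hs_nsq hHS hLV (fderiv ℂ F p v)
  have c := hHS.chain X (β → ℂ) nsq F p v (hF.contDiffAt.restrict_scalars ℝ) (h0 ▸ a3)
  rw [h0, a2, hF.differentiableAt.fderiv_restrictScalars ℝ] at c
  rw [(hHS.add X _ _ p v hk hN).2.2, n.2.2, c, h0]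
  simp [a1, nsq, ip]

omit [IsScalarTower ℝ ℂ X] in
/-- a perturbed Levi form along a splitting -/
theorem lev_split (f : X → ℝ) (p p₀ u u' : X) (ε : ℝ)
    (h : ‖fderiv ℝ (fderiv ℝ f) p - fderiv ℝ (fderiv ℝ f) p₀‖ ≤ ε) :
    lev f p₀ u - 2 * ‖fderiv ℝ (fderiv ℝ f) p₀‖ * (2 * (‖u‖ * ‖u'‖) + ‖u'‖ ^ 2) -
      2 * ε * ‖u + u'‖ ^ 2 ≤ lev f p (u + u') := by
  have k : ∀ u u' : X, hs f p₀ u - ‖fderiv ℝ (fderiv ℝ f) p₀‖ * (2 * (‖u‖ * ‖u'‖) + ‖u'‖ ^ 2) -
      ε * ‖u + u'‖ ^ 2 ≤ hs f p (u + u') := fun u u' => by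
    have a1 := (fderiv ℝ (fderiv ℝ f) p - fderiv ℝ (fderiv ℝ f) p₀).le_opNorm₂ (u + u') (u + u')
    have a2 := (fderiv ℝ (fderiv ℝ f) p₀).le_opNorm₂ u u'
    have a3 := (fderiv ℝ (fderiv ℝ f) p₀).le_opNorm₂ u' u
    have a4 := (fderiv ℝ (fderiv ℝ f) p₀).le_opNorm₂ u' u'
    have a5 := mul_le_mul_of_nonneg_right h (sq_nonneg ‖u + u'‖)
    have a6 : fderiv ℝ (fderiv ℝ f) p₀ (u + u') (u + u') = fderiv ℝ (fderiv ℝ f) p₀ u u +
        fderiv ℝ (fderiv ℝ f) p₀ u u' + fderiv ℝ (fderiv ℝ f) p₀ u' u +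
        fderiv ℝ (fderiv ℝ f) p₀ u' u' := by
      simp only [map_add, add_apply]
      ring
    rw [sub_apply, sub_apply] at a1
    rw [Real.norm_eq_abs, abs_le] at a1 a2 a3 a4
    unfold hs
    linarith [a1.1, a2.1, a3.1, a4.1]
  have b1 := k u u'
  have b2 := k (I • u) (I • u')
  rw [← smul_add, norm_smul, norm_smul, norm_smul, norm_I, one_mul, one_mul, one_mul] at b2
  unfold lev
  linarith

end Pool.Agent.MP_fcd29e_an.H4.CLG
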