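import Pool.Agent.MP_fcd29e_an.H81.Spec

/-!
Integration by parts up to the boundary.
-/

set_option autoImplicit false

open Pool.Agent.MP_fcd29e_an.H81 MeasureTheory Complex Set Filter Topology Metric
open scoped ContDiff ComplexConjugate ENNReal NNReal

namespace Pool.Agent.MP_fcd29e_an.H4

variable {N : ℕ}

theorem e1_dir (L : Lv0) (ρ : E N → ℝ) (hρ : Dom ρ) (V : E N → ℂ) (K : Set (E N)) (C : ℝ)
    (hK : IsCompact K) (h0 : (0 : E N) ∉ K) (hV : ContDiffOn ℝ ∞ V (Op ρ))
    (hz : ∀ z ∈ Op ρ, z ∉ K → V z = 0)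
    (hb : ∀ z ∈ Op ρ ∩ K, ‖V z‖ ≤ C * ρ z ^ 2 ∧ ‖fderiv ℝ V z‖ ≤ C) (v : E N) :
    IntegrableOn (fun z => fderiv ℝ V z v) (Op ρ) ∧ ∫ z in Op ρ, fderiv ℝ V z v = 0 := by
  obtain ⟨-, hO, -, -, -, -, -, hKK, -⟩ := L.c1 N ρ hρ
  obtain ⟨⟨M, hM⟩, -⟩ := hKK K hK h0
  set W : E N → ℂ := (Op ρ).indicator V with hW
  have hWK : ∀ y, y ∉ K → W y = 0 := by
    intro y hy
    by_cases hyO : y ∈ Op ρ
    · rw [hW, indicator_of_mem hyO, hz y hyO hy]
    · rw [hW, indicator_of_notMem hyO]
  have hoffK : ∀ z, z ∉ K → HasFDerivAt W (0 : E N →L[ℝ] ℂ) z := by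
    intro z hzK
    have : W =ᶠ[𝓝 z] fun _ => 0 := by
      filter_upwards [hK.isClosed.isOpen_compl.mem_nhds hzK] with y hy using hWK y hy
    exact (hasFDerivAt_const (0 : ℂ) z).congr_of_eventuallyEq this
  have hin : ∀ z ∈ Op ρ, HasFDerivAt W (fderiv ℝ V z) z := by
    intro z hzO
    have h1 : W =ᶠ[𝓝 z] V := by
      filter_upwards [hO.mem_nhds hzO] with y hy using by rw [hW, indicator_of_mem hy]
    have h2 : DifferentiableAt ℝ V z :=
      (hV.contDiffAt (hO.mem_nhds hzO)).differentiableAt (by simp)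
    exact h2.hasFDerivAt.congr_of_eventuallyEq h1
  have hout : ∀ z, z ∉ Op ρ → HasFDerivAt W (0 : E N →L[ℝ] ℂ) z := by
    intro z hzO
    by_cases hzK : z ∈ K
    · have hz0 : z ≠ 0 := fun h => h0 (h ▸ hzK)
      have hρz : ρ z ≤ 0 := not_lt.1 fun h => hzO ⟨hz0, h⟩
      have hWz : W z = 0 := by rw [hW, indicator_of_notMem hzO]
      have hbd : ∀ y, ‖W y‖ ≤ |C| * M ^ 2 * ‖y - z‖ ^ 2 := by
        intro y
        have hnn : 0 ≤ |C| * M ^ 2 * ‖y - z‖ ^ 2 := by positivity
        by_cases hyK : y ∈ K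
        · by_cases hyO : y ∈ Op ρ
          · rw [hW, indicator_of_mem hyO]
            have h1 := (hb y ⟨hyO, hyK⟩).1
            have h2 := hM z hzK y hyK
            have h3 : 0 < ρ y := hyO.2
            have h4 : ρ y ≤ M * ‖y - z‖ := by
              have := le_abs_self (ρ y - ρ z)
              linarith
            have h5 : ρ y ^ 2 ≤ (M * ‖y - z‖) ^ 2 := pow_le_pow_left₀ h3.le h4 2
            calc ‖V y‖ ≤ C * ρ y ^ 2 := h1
              _ ≤ |C| * ρ y ^ 2 := mul_le_mul_of_nonneg_right (le_abs_self C) (sq_nonneg _)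
              _ ≤ |C| * (M * ‖y - z‖) ^ 2 := mul_le_mul_of_nonneg_left h5 (abs_nonneg C)
              _ = _ := by ring
          · rw [hW, indicator_of_notMem hyO, norm_zero]; exact hnn
        · rw [hWK y hyK, norm_zero]; exact hnn
      rw [hasFDerivAt_iff_isLittleO]
      have h1 : (fun y => W y - W z - (0 : E N →L[ℝ] ℂ) (y - z)) =O[𝓝 z]
          fun y => ‖y - z‖ ^ 2 := by
        refine Asymptotics.IsBigO.of_bound (|C| * M ^ 2) (Eventually.of_forall fun y => ?_)
        rw [hWz]
        simpa using hbd y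
      exact h1.trans_isLittleO (Asymptotics.isLittleO_pow_sub_sub z one_lt_two)
    · exact hoffK z hzK
  have hd : Differentiable ℝ W := by
    intro z
    by_cases hzO : z ∈ Op ρ
    · exact (hin z hzO).differentiableAt
    · exact (hout z hzO).differentiableAt
  have hf : (fun z => fderiv ℝ W z v) = (Op ρ).indicator fun z => fderiv ℝ V z v := by
    funext z
    by_cases hzO : z ∈ Op ρ
    · rw [indicator_of_mem hzO, (hin z hzO).fderiv]
    · rw [indicator_of_notMem hzO, (hout z hzO).fderiv]; rfl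
  have hcs : HasCompactSupport W := HasCompactSupport.intro hK hWK
  have hWi : Integrable W := hd.continuous.integrable_of_hasCompactSupport hcs
  have hDi : Integrable fun z => fderiv ℝ W z v := by
    have h1 : IntegrableOn (fun z => fderiv ℝ W z v) K := by
      refine Measure.integrableOn_of_bounded (M := |C| * ‖v‖) hK.measure_lt_top.ne
        (measurable_fderiv_apply_const ℝ W v).aestronglyMeasurable ?_
      filter_upwards [ae_restrict_mem hK.measurableSet] with z hzK
      by_cases hzO : z ∈ Op ρ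
      · rw [(hin z hzO).fderiv]
        exact ((fderiv ℝ V z).le_opNorm v).trans
          (mul_le_mul_of_nonneg_right ((hb z ⟨hzO, hzK⟩).2.trans (le_abs_self C)) (norm_nonneg v))
      · rw [(hout z hzO).fderiv]
        simp only [zero_apply, norm_zero]
        positivity
    refine h1.integrable_of_forall_notMem_eq_zero fun z hzK => ?_
    rw [(hoffK z hzK).fderiv]; rfl
  refine ⟨(integrable_indicator_iff hO.measurableSet).1 (hf ▸ hDi), ?_⟩
  rw [← integral_indicator hO.measurableSet, ← hf]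
  have := integral_mul_fderiv_eq_neg_fderiv_mul_of_integrable (μ := (volume : Measure (E N)))
    (f := fun _ : E N => (1 : ℂ)) (g := W) (v := v) (by simp) (by simpa using hDi)
    (by simpa using hWi) (fun _ _ => differentiableAt_const _) (fun z _ => hd z)
  simpa using this

theorem e1 (L : Lv0) : StmtE1 := by
  intro N ρ hρ V K C hK h0 hV hz hb j
  obtain ⟨h1, h2⟩ := e1_dir L ρ hρ V K C hK h0 hV hz hb (ee j)
  obtain ⟨h3, h4⟩ := e1_dir L ρ hρ V K C hK h0 hV hz hb (I • ee j)
  have h5 : IntegrableOn (fun z => I * fderiv ℝ V z (I • ee j)) (Op ρ) := h3.const_mul I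
  refine ⟨⟨(h1.sub h5).div_const 2, ?_⟩, (h1.add h5).div_const 2, ?_⟩
  · unfold dz
    rw [integral_div, integral_sub h1 h5, integral_const_mul, h2, h4]
    simp
  · unfold dzb
    rw [integral_div, integral_add h1 h5, integral_const_mul, h2, h4]
    simp

end Pool.Agent.MP_fcd29e_an.H4
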