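import Pool.Agent.MP_fcd29e_an.H81.Spec2

/-!
Gronwall's inequality for the distance to `K`.
-/

set_option autoImplicit false

open Pool.Agent.MP_fcd29e_an.H81 MeasureTheory Complex Set Filter Topology Metric
open scoped ContDiff ComplexConjugate ENNReal NNReal

namespace Pool.Agent.MP_fcd29e_an.H4

variable {N : ℕ}

theorem nearest {ρ : E N → ℝ} {K : Set (E N)} (hK : KS ρ K) {p x : E N} (hp : p ∈ K) {r : ℝ}
    (hr : 0 < r) (h4 : 4 * r ≤ ‖p‖) (hx : x ∈ closedBall p r) :
    ∃ q ∈ K, q ∈ closedBall p (2 * r) ∧ dist x q = infDist x K := by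
  obtain ⟨q, hq, hd⟩ := hK.closed.exists_infDist_eq_dist (insert_nonempty _ _) x
  have h1 : infDist x (insert 0 K) ≤ infDist x K :=
    infDist_le_infDist_of_subset (subset_insert _ _) hK.ne
  have h2 : infDist x K ≤ dist x p := infDist_le_dist_of_mem hp
  have h3 : dist x p ≤ r := hx
  have hqK : q ∈ K := by
    rcases hq with rfl | hq
    · exfalso
      have h5 : dist p 0 ≤ dist p x + dist x 0 := dist_triangle _ _ _
      rw [dist_zero_right p, dist_comm p x] at h5
      linarith
    · exact hq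
  refine ⟨q, hqK, ?_, le_antisymm (by linarith) (infDist_le_dist_of_mem hqK)⟩
  have h5 : dist q p ≤ dist q x + dist x p := dist_triangle _ _ _
  rw [dist_comm q x] at h5
  exact mem_closedBall.2 (by linarith)

theorem gr : StmtGR := by
  intro N ρ K hK hP p hp r T e L X γ γ' hr h4 hL hX h0 hγ
  have hKp : (0 : ℝ) < 2 * L + 1 := by positivity
  have hc : ContinuousOn (fun t => infDist (γ t) K ^ 2) (Icc 0 T) := fun t ht =>
    (((continuous_infDist_pt K).continuousAt.comp
      (hγ t ht).1.continuousAt).pow 2).continuousWithinAt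
  have key := le_gronwallBound_of_liminf_deriv_right_le
    (f' := fun t => (2 * L + 1) * infDist (γ t) K ^ 2 + e ^ 2) (δ := 0) (K := 2 * L + 1)
    (ε := e ^ 2) hc (fun t ht s hs => ?_) (by rw [infDist_zero_of_mem h0]; simp)
    (fun _ _ => le_rfl)
  · intro t ht
    have h1 := key t ht
    rw [gronwallBound_of_K_ne_0 hKp.ne', sub_zero] at h1
    have h2 : Real.exp ((2 * L + 1) * t) - 1 ≤ (2 * L + 1) * t * Real.exp ((2 * L + 1) * t) := by
      have h3 := Real.add_one_le_exp (-((2 * L + 1) * t))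
      have h5 := mul_le_mul_of_nonneg_right h3 (Real.exp_pos ((2 * L + 1) * t)).le
      rw [← Real.exp_add, neg_add_cancel, Real.exp_zero] at h5
      linarith
    have h3 : infDist (γ t) K ^ 2 ≤ e ^ 2 * T * Real.exp ((2 * L + 1) * T) := by
      calc infDist (γ t) K ^ 2 ≤ e ^ 2 / (2 * L + 1) * (Real.exp ((2 * L + 1) * t) - 1) := by
            simpa using h1
        _ ≤ e ^ 2 / (2 * L + 1) * ((2 * L + 1) * t * Real.exp ((2 * L + 1) * t)) :=
            mul_le_mul_of_nonneg_left h2 (by positivity)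
        _ = e ^ 2 * (t * Real.exp ((2 * L + 1) * t)) := by field_simp
        _ ≤ e ^ 2 * (T * Real.exp ((2 * L + 1) * T)) :=
            mul_le_mul_of_nonneg_left (mul_le_mul ht.2
              (Real.exp_le_exp.2 (mul_le_mul_of_nonneg_left ht.2 hKp.le)) (Real.exp_pos _).le
              (ht.1.trans ht.2)) (sq_nonneg e)
        _ = _ := by ring
    refine ⟨h3, fun he => ?_⟩
    obtain ⟨q, hq, -, hd⟩ := nearest hK hp hr h4 (hγ t ht).2.1
    rw [he, ← hd] at h3
    have h5 : dist (γ t) q = 0 := by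
      have : dist (γ t) q ^ 2 ≤ 0 := by simpa using h3
      exact pow_eq_zero_iff (two_ne_zero) |>.1 (le_antisymm this (sq_nonneg _))
    rwa [dist_eq_zero.1 h5]
  · obtain ⟨hd, hb, he⟩ := hγ t (Ico_subset_Icc_self ht)
    obtain ⟨q, hq, hq2, hdq⟩ := nearest hK hp hr h4 hb
    have h1 : inner ℝ (γ t - q) (X q) = 0 := hP _ q hq hdq _ (hX q ⟨hq, hq2⟩)
    have h2 : HasDerivAt (fun s => ‖γ s - q‖ ^ 2) (2 * inner ℝ (γ t - q) (γ' t)) t :=
      (hd.sub_const q).norm_sq
    have h3 : ‖X (γ t) - X q‖ ≤ L * ‖γ t - q‖ := by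
      have := hL.dist_le_mul (γ t) (closedBall_subset_closedBall (by linarith) hb) q hq2
      rwa [dist_eq_norm, dist_eq_norm] at this
    have h5 : inner ℝ (γ t - q) (γ' t) =
        inner ℝ (γ t - q) (γ' t - X (γ t)) + inner ℝ (γ t - q) (X (γ t) - X q) := by
      rw [inner_sub_right, inner_sub_right, h1]; ring
    have h6 := real_inner_le_norm (γ t - q) (γ' t - X (γ t))
    have h7 := real_inner_le_norm (γ t - q) (X (γ t) - X q)
    have h8 : infDist (γ t) K = ‖γ t - q‖ := by rw [← hdq, dist_eq_norm]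
    have h9 : 2 * inner ℝ (γ t - q) (γ' t) < s := by
      refine lt_of_le_of_lt ?_ hs
      rw [h8, h5]
      have a1 := mul_le_mul_of_nonneg_left he (norm_nonneg (γ t - q))
      have a2 := mul_le_mul_of_nonneg_left h3 (norm_nonneg (γ t - q))
      nlinarith [sq_nonneg (‖γ t - q‖ - e)]
    have h10 := (h2.hasDerivWithinAt (s := Ici t)).liminf_right_slope_le h9
    refine (h10.and_eventually self_mem_nhdsWithin).mono fun z hz => lt_of_le_of_lt ?_ hz.1
    rw [slope_def_field, div_eq_inv_mul, h8]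
    refine mul_le_mul_of_nonneg_left (sub_le_sub_right ?_ _) (inv_nonneg.2 (sub_nonneg.2 hz.2.le))
    rw [← dist_eq_norm]
    exact pow_le_pow_left₀ infDist_nonneg (infDist_le_dist_of_mem hq) 2

end Pool.Agent.MP_fcd29e_an.H4
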